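import Mathlib

set_option autoImplicit false

namespace Pool.Agent.H78.Old.FailsAt22

/-- A binary partial word; `none` is a hole, `some false` is the letter 0, `some true` is 1. -/
abbrev PWord : Type := List (Option Bool)

/-- `u ⊂ v` for a full word `v`: equal length, and `v` carries the letter of `u` at every
position where `u` is not a hole. -/
def ContainedIn (u : PWord) (v : List Bool) : Prop :=
  List.Forall₂ (fun a b => a = none ∨ a = some b) u v

/-- The nonempty full words `x` such that some factor `u` of `w` satisfies `u ⊂ xx`. -/
def squareRoots (w : PWord) : Set (List Bool) :=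
  {x | x ≠ [] ∧ ∃ u : PWord, u <:+: w ∧ ContainedIn u (x ++ x)}

/-- `Sq(w)`: the number of distinct nonempty `x` such that `xx` is compatible with a factor. -/
noncomputable def Sq (w : PWord) : ℕ := (squareRoots w).ncard

/-- The number of holes. -/
def holes (w : PWord) : ℕ := w.count none

/-- `w'` is obtained from `w` by replacing exactly one hole by a letter. -/
def Strengthening (w w' : PWord) : Prop :=
  ∃ (i : ℕ) (c : Bool), w[i]? = some none ∧ w' = w.set i (some c)

/-- All values `Sq(w) - Sq(w')`, `w` of length `n` with exactly `h` holes and `w'` a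
strengthening of `w`. -/
def drops (h n : ℕ) : Set ℤ :=
  {d | ∃ w w' : PWord, w.length = n ∧ holes w = h ∧ Strengthening w w' ∧
    d = (Sq w : ℤ) - (Sq w' : ℤ)}

/-! ### A computable description of `squareRoots` -/

/-- letters compatible with two aligned positions -/
def opts : Option Bool → Option Bool → List Bool
  | none, none => [false, true]
  | some a, none => [a]
  | none, some b => [b]
  | some a, some b => if a = b then [a] else []

lemma mem_opts (a b : Option Bool) (c : Bool) :
    c ∈ opts a b ↔ (a = none ∨ a = some c) ∧ (b = none ∨ b = some c) := by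
  revert a b c; decide

/-- all full words `x` with `u ⊂ x` and `v ⊂ x` -/
def cands : PWord → PWord → List (List Bool)
  | [], [] => [[]]
  | a :: u, b :: v => (opts a b).flatMap (fun c => (cands u v).map (fun x => c :: x))
  | _, _ => []

lemma mem_cands (u v : PWord) (x : List Bool) :
    x ∈ cands u v ↔ ContainedIn u x ∧ ContainedIn v x := by
  induction u generalizing v x with
  | nil =>
    cases v with
    | nil => cases x <;> simp [cands, ContainedIn]
    | cons b v => cases x <;> simp [cands, ContainedIn]
  | cons a u ih =>
    cases v with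
    | nil => cases x <;> simp [cands, ContainedIn]
    | cons b v =>
      cases x with
      | nil => simp [cands, ContainedIn]
      | cons c x =>
        have ih' := ih v x
        simp only [ContainedIn] at ih'
        simp only [cands, ContainedIn, List.mem_flatMap, List.mem_map, List.cons.injEq,
          List.forall₂_cons, mem_opts]
        constructor
        · rintro ⟨c', ⟨h1, h2⟩, x', hx', rfl, rfl⟩
          have := ih'.mp hx'
          exact ⟨⟨h1, this.1⟩, ⟨h2, this.2⟩⟩
        · rintro ⟨⟨h1, h2⟩, ⟨h3, h4⟩⟩
          exact ⟨c, ⟨h1, h3⟩, x, ih'.mpr ⟨h2, h4⟩, rfl, rfl⟩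

/-- the list of all square roots, with repetitions -/
def rootList (w : PWord) : List (List Bool) :=
  (List.range (w.length + 1)).flatMap (fun i =>
    (List.range (w.length / 2)).flatMap (fun k =>
      cands ((w.drop i).take (k + 1)) (((w.drop i).drop (k + 1)).take (k + 1))))

lemma forall₂_append_self {u : PWord} {x : List Bool} :
    ContainedIn u (x ++ x) ↔
      ContainedIn (u.take x.length) x ∧ ContainedIn (u.drop x.length) x := by
  unfold ContainedIn
  constructor
  · intro h
    have h1 := List.forall₂_take x.length h
    have h2 := List.forall₂_drop x.length h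
    simp only [List.take_left', List.drop_left'] at h1 h2
    exact ⟨h1, h2⟩
  · rintro ⟨h1, h2⟩
    have := List.rel_append h1 h2
    simp only [List.take_append_drop] at this
    exact this

lemma mem_rootList (w : PWord) (x : List Bool) (hx : x ≠ []) :
    x ∈ rootList w ↔ ∃ u : PWord, u <:+: w ∧ ContainedIn u (x ++ x) := by
  constructor
  · intro h
    simp only [rootList, List.mem_flatMap, List.mem_range, mem_cands] at h
    obtain ⟨i, hi, k, hk, h1, h2⟩ := h
    refine ⟨(w.drop i).take (k + 1) ++ ((w.drop i).drop (k + 1)).take (k + 1), ?_, ?_⟩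
    · have : (w.drop i).take (k + 1) ++ ((w.drop i).drop (k + 1)).take (k + 1)
          = (w.drop i).take ((k + 1) + (k + 1)) := by
        exact (List.take_add (l := w.drop i) (i := k + 1) (j := k + 1)).symm
      rw [this]
      exact ((List.take_prefix _ _).isInfix).trans (List.drop_suffix _ _).isInfix
    · exact List.rel_append h1 h2
  · rintro ⟨u, ⟨s, t, hw⟩, hu⟩
    have hlen : u.length = x.length + x.length := by
      have := hu.length_eq
      simpa using this
    obtain ⟨h1, h2⟩ := forall₂_append_self.mp hu
    have hxpos : 0 < x.length := List.length_pos_iff.mpr hx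
    simp only [rootList, List.mem_flatMap, List.mem_range, mem_cands]
    have hwl : w.length = s.length + u.length + t.length := by rw [← hw]; simp; omega
    refine ⟨s.length, by omega, x.length - 1, by omega, ?_, ?_⟩
    · have e : x.length - 1 + 1 = x.length := by omega
      rw [e, ← hw]
      have : ((s ++ u ++ t).drop s.length).take x.length = u.take x.length := by
        rw [List.append_assoc, List.drop_left]
        rw [List.take_append_of_le_length (by omega)]
      rw [this]; exact h1
    · have e : x.length - 1 + 1 = x.length := by omega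
      rw [e, ← hw]
      have : (((s ++ u ++ t).drop s.length).drop x.length).take x.length = u.drop x.length := by
        rw [List.append_assoc, List.drop_left]
        rw [List.drop_append_of_le_length (by omega)]
        rw [List.take_append_of_le_length (by simp; omega)]
        apply List.take_of_length_le
        simp; omega
      rw [this]; exact h2

lemma Sq_eq (w : PWord) : Sq w = ((rootList w).filter (fun x => x ≠ [])).toFinset.card := by
  unfold Sq
  have : squareRoots w = (((rootList w).filter (fun x => x ≠ [])).toFinset : Set (List Bool)) := by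
    ext x
    simp only [squareRoots, Set.mem_ofPred_eq, List.coe_toFinset, List.mem_filter,
      decide_eq_true_eq]
    constructor
    · rintro ⟨h1, h2⟩; exact ⟨(mem_rootList w x h1).mpr h2, h1⟩
    · rintro ⟨h1, h2⟩; exact ⟨h2, (mem_rootList w x h2).mp h1⟩
  rw [this, Set.ncard_coe_finset]

/-- letter 0 -/
abbrev z : Option Bool := some false
/-- letter 1 -/
abbrev o : Option Bool := some true
/-- hole -/
abbrev q : Option Bool := none

/-- The word `000001000??01000001000`. -/
def w22 : PWord := [z,z,z,z,z,o,z,z,z,q,q,z,o,z,z,z,z,z,o,z,z,z]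

/-- The word `000001000?101000001000`. -/
def w22' : PWord := [z,z,z,z,z,o,z,z,z,q,o,z,o,z,z,z,z,z,o,z,z,z]

lemma Sq_w22 : Sq w22 = 23 := by
  rw [Sq_eq]; decide +kernel

lemma Sq_w22' : Sq w22' = 8 := by
  rw [Sq_eq]; decide +kernel

/-- A drop of 15 is attained at length 22 with two holes. -/
lemma drop15 : (15 : ℤ) ∈ drops 2 22 := by
  refine ⟨w22, w22', by decide, by decide, ⟨10, true, by decide, by decide⟩, ?_⟩
  rw [Sq_w22, Sq_w22']; norm_num

lemma drops_finite (h n : ℕ) : (drops h n).Finite := by
  have hf : {w : PWord | w.length = n}.Finite := List.finite_length_eq (Option Bool) n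
  have h2 : ((fun p : PWord × PWord => (Sq p.1 : ℤ) - (Sq p.2 : ℤ)) ''
      ({w : PWord | w.length = n} ×ˢ {w : PWord | w.length = n})).Finite :=
    (hf.prod hf).image _
  apply h2.subset
  rintro d ⟨w, w', hw, -, ⟨i, c, -, rfl⟩, rfl⟩
  exact ⟨(w, w.set i (some c)), ⟨hw, by simpa using hw⟩, rfl⟩

/-- At length 22 the largest drop with two holes exists and exceeds `⌊7(22-1)/10⌋ = 14`. -/
theorem result :
    ∃ m : ℤ, IsGreatest (drops 2 22) m ∧ ⌊(7 * ((22 : ℚ) - 1) / 10)⌋ < m := by
  obtain ⟨m, hm, hmax⟩ := Set.exists_max_image (drops 2 22) id (drops_finite 2 22) ⟨_, drop15⟩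
  refine ⟨m, ⟨hm, fun b hb => hmax b hb⟩, ?_⟩
  have h1 : (15 : ℤ) ≤ m := hmax 15 drop15
  have h2 : ⌊(7 * ((22 : ℚ) - 1) / 10)⌋ = 14 := by
    rw [Int.floor_eq_iff]; norm_num
  omega

end Pool.Agent.H78.Old.FailsAt22
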