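import Mathlib

set_option autoImplicit false
open Pointwise

namespace Pool.Agent.H78.Old.LongerWords

open RegularWreathProduct

/-- The base group: cyclic of order `N`, written multiplicatively. -/
abbrev D (N : ℕ) : Type := Multiplicative (ZMod N)

/-- The cyclic group of order `k + 2`. -/
abbrev Q (k : ℕ) : Type := Multiplicative (ZMod (k + 2))

/-- The wreath product. -/
abbrev W (N k : ℕ) : Type := RegularWreathProduct (D N) (Q k)

/-- The generator of `Q`. -/
def t (k : ℕ) : Q k := Multiplicative.ofAdd 1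

/-- The shift element. -/
def sh (N k : ℕ) : W N k := ⟨1, t k⟩

/-- Elements supported at the identity coordinate. -/
def h0 (N k : ℕ) (d : D N) : W N k := ⟨fun q => if q = 1 then d else 1, 1⟩

/-- Membership predicate for the set `A`. -/
def PA (N k : ℕ) (g : W N k) : Prop := g.right = 1 ∧ g.left (t k ^ (k + 1)) = 1

lemma t_pow_ne (k : ℕ) {i : ℕ} (hi : i ≤ k) : t k ^ i ≠ t k ^ (k + 1) := by
  intro h
  have h1 := congrArg Multiplicative.toAdd h
  simp only [t, toAdd_pow, toAdd_ofAdd, nsmul_eq_mul, mul_one] at h1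
  have h2 : (i : ZMod (k + 2)).val = ((k + 1 : ℕ) : ZMod (k + 2)).val := by rw [h1]
  rw [ZMod.val_natCast_of_lt (by omega), ZMod.val_natCast_of_lt (by omega)] at h2
  omega

lemma sh_pow (N k i : ℕ) : sh N k ^ i = ⟨1, t k ^ i⟩ := by
  induction i with
  | zero => rfl
  | succ i ih =>
    rw [pow_succ, ih]
    ext y
    · simp [sh]
    · simp [sh, pow_succ]

lemma PA_mul (N k : ℕ) (g g' : W N k) (hg : PA N k g) (hg' : PA N k g') :
    PA N k (g * g') := by
  obtain ⟨h1, h2⟩ := hg
  obtain ⟨h1', h2'⟩ := hg'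
  refine ⟨by simp [h1, h1'], by simp [h1, h2, h2']⟩

lemma conj_h0 (N k i : ℕ) (hi : i ≤ k) (d : D N) :
    ∃ f : W N k, PA N k f ∧ sh N k ^ i * h0 N k d = f * sh N k ^ i := by
  refine ⟨⟨fun q => if q = t k ^ i then d else 1, 1⟩, ⟨rfl, ?_⟩, ?_⟩
  · have := (t_pow_ne k hi).symm
    simp [this]
  · rw [sh_pow]
    ext y
    · have : ((t k ^ i)⁻¹ * y = 1) ↔ y = t k ^ i := by
        constructor
        · intro h; have := congrArg (fun z => t k ^ i * z) h; simpa using this
        · intro h; simp [h]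
      simp [h0, this]
    · simp [h0]

/-- key injectivity -/
lemma key_inj (N k : ℕ) (g g' : W N k) (d d' : D N) (hg : PA N k g) (hg' : PA N k g')
    (h : g * (sh N k ^ (k + 1) * h0 N k d) = g' * (sh N k ^ (k + 1) * h0 N k d')) :
    g = g' ∧ d = d' := by
  obtain ⟨h1, h2⟩ := hg
  obtain ⟨h1', h2'⟩ := hg'
  rw [sh_pow] at h
  have hl := congrArg (fun z : W N k => z.left (t k ^ (k + 1))) h
  have hd : d = d' := by
    simpa [h0, h1, h2, h1', h2'] using hl
  subst hd
  exact ⟨mul_right_cancel h, rfl⟩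

/-- The construction: conditions on all words of length at most `k` in `B`, and growth at
length `k + 2`. -/
theorem construction (k K : ℕ) :
    ∃ (G : Type) (_ : Group G) (_ : Finite G) (_ : DecidableEq G) (A B : Finset G),
      A.Nonempty ∧ (1 : G) ∈ B ∧
      (∀ j ≤ k, ∀ w ∈ B ^ j, (A * {w} * B).card ≤ 2 * A.card) ∧
      ∀ h : ℕ, k + 2 ≤ h → ∀ X ⊆ A, K * X.card ≤ (X * B ^ h).card := by
  classical
  let N := K + 1
  have : NeZero N := ⟨Nat.succ_ne_zero K⟩
  have : Fintype (W N k) := Fintype.ofFinite _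
  let A : Finset (W N k) := Finset.univ.filter (fun g => PA N k g)
  let B : Finset (W N k) := insert (sh N k) (Finset.univ.image (h0 N k))
  have memA : ∀ g, g ∈ A ↔ PA N k g := by intro g; simp [A]
  have memB : ∀ g, g ∈ B ↔ g = sh N k ∨ ∃ d, h0 N k d = g := by intro g; simp [B]
  have one_h0 : h0 N k 1 = 1 := by
    ext y
    · simp [h0]
    · simp [h0]
  have oneA : (1 : W N k) ∈ A := by rw [memA]; exact ⟨rfl, rfl⟩
  have oneB : (1 : W N k) ∈ B := by rw [memB]; exact Or.inr ⟨1, one_h0⟩
  -- words of length at most `k`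
  have hw : ∀ j ≤ k, ∀ w ∈ B ^ j, ∃ i ≤ j, ∃ f : W N k, PA N k f ∧ w = f * sh N k ^ i := by
    intro j
    induction j with
    | zero =>
      intro _ w hw
      rw [pow_zero, Finset.mem_one] at hw
      exact ⟨0, le_rfl, 1, ⟨rfl, rfl⟩, by simp [hw]⟩
    | succ j ih =>
      intro hj w hw
      rw [pow_succ] at hw
      obtain ⟨w', hw', b, hb, rfl⟩ := Finset.mem_mul.mp hw
      obtain ⟨i, hi, f, hf, rfl⟩ := ih (by omega) w' hw'
      rcases (memB b).mp hb with rfl | ⟨d, rfl⟩
      · exact ⟨i + 1, by omega, f, hf, by rw [mul_assoc, ← pow_succ]⟩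
      · obtain ⟨f', hf', he⟩ := conj_h0 N k i (by omega) d
        exact ⟨i, by omega, f * f', PA_mul N k f f' hf hf', by rw [mul_assoc, he, ← mul_assoc]⟩
  refine ⟨W N k, inferInstance, inferInstance, inferInstance, A, B, ⟨1, oneA⟩, oneB, ?_, ?_⟩
  · intro j hj w hwj
    obtain ⟨i, hi, f, hf, rfl⟩ := hw j hj w hwj
    have hsub : A * {f * sh N k ^ i} * B ⊆ A * {sh N k ^ i} ∪ A * {sh N k ^ (i + 1)} := by
      intro z hz
      obtain ⟨a', ha', b, hb, rfl⟩ := Finset.mem_mul.mp hz
      obtain ⟨a, ha, s, hs, rfl⟩ := Finset.mem_mul.mp ha'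
      rw [Finset.mem_singleton] at hs
      subst hs
      rcases (memB b).mp hb with rfl | ⟨d, rfl⟩
      · refine Finset.mem_union_right _ (Finset.mem_mul.mpr ⟨a * f,
          (memA _).mpr (PA_mul N k _ _ ((memA a).mp ha) hf), _, Finset.mem_singleton_self _, ?_⟩)
        rw [pow_succ]
        simp only [mul_assoc]
      · obtain ⟨f', hf', he⟩ := conj_h0 N k i (by omega) d
        refine Finset.mem_union_left _ (Finset.mem_mul.mpr ⟨a * f * f',
          (memA _).mpr (PA_mul N k _ _ (PA_mul N k _ _ ((memA a).mp ha) hf) hf'), _,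
          Finset.mem_singleton_self _, ?_⟩)
        rw [mul_assoc (a * f), ← he]
        simp only [mul_assoc]
    calc (A * {f * sh N k ^ i} * B).card
        ≤ (A * {sh N k ^ i} ∪ A * {sh N k ^ (i + 1)}).card := Finset.card_le_card hsub
      _ ≤ (A * {sh N k ^ i}).card + (A * {sh N k ^ (i + 1)}).card := Finset.card_union_le _ _
      _ = 2 * A.card := by
        simp only [Finset.card_mul_singleton]; ring
  · intro h hh X hXA
    have hcard : X.card * N = (X ×ˢ (Finset.univ : Finset (D N))).card := by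
      rw [Finset.card_product, Finset.card_univ]
      congr 1
      have h1 : Fintype.card (D N) = Fintype.card (ZMod N) :=
        Fintype.card_congr Multiplicative.toAdd
      rw [h1, ZMod.card]
    have hlow : X.card * N ≤ (X * B ^ (k + 2)).card := by
      rw [hcard]
      apply Finset.card_le_card_of_injOn
        (fun p : W N k × D N => p.1 * (sh N k ^ (k + 1) * h0 N k p.2))
      · intro p hp
        have hp' : p.1 ∈ X := (Finset.mem_product.mp (Finset.mem_coe.mp hp)).1
        apply Finset.mem_coe.mpr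
        apply Finset.mul_mem_mul hp'
        have e1 : B ^ (k + 2) = B ^ (k + 1) * B := pow_succ B (k + 1)
        rw [e1]
        exact Finset.mul_mem_mul (Finset.pow_mem_pow ((memB _).mpr (Or.inl rfl)))
          ((memB _).mpr (Or.inr ⟨p.2, rfl⟩))
      · intro p hp p' hp' he
        have hp1 : p.1 ∈ X := (Finset.mem_product.mp (Finset.mem_coe.mp hp)).1
        have hp1' : p'.1 ∈ X := (Finset.mem_product.mp (Finset.mem_coe.mp hp')).1
        obtain ⟨e1, e2⟩ := key_inj N k p.1 p'.1 p.2 p'.2 ((memA _).mp (hXA hp1))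
          ((memA _).mp (hXA hp1')) he
        exact Prod.ext e1 e2
    have hmono : (X * B ^ (k + 2)).card ≤ (X * B ^ h).card :=
      Finset.card_le_card (Finset.mul_subset_mul_left
        (Finset.pow_subset_pow_right oneB hh))
    calc K * X.card ≤ X.card * N := by
          rw [mul_comm]; exact Nat.mul_le_mul_left _ (Nat.le_succ K)
      _ ≤ (X * B ^ (k + 2)).card := hlow
      _ ≤ (X * B ^ h).card := hmono

/-- For every `k`, every `h ≥ k + 2`, every real `c` and every real `α > 2` there are a finite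
group and finite nonempty subsets `A`, `B` such that `|AB| < α |A|` and `|A w B| ≤ α |A|` for all
products `w` of at most `k` elements of `B`, but `|X B^h| > α^(c h) |X|` for every nonempty
`X ⊆ A`. For `k = 1` this is the negative answer to the question, for every `α > 2` and every
`h ≥ 3`. -/
theorem result (k h : ℕ) (hh : k + 2 ≤ h) (c α : ℝ) (hα : 2 < α) :
    ∃ (G : Type) (_ : Group G) (_ : Finite G) (_ : DecidableEq G) (A B : Finset G),
      A.Nonempty ∧ B.Nonempty ∧
      ((A * B).card : ℝ) < α * (A.card : ℝ) ∧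
      (∀ j ≤ k, ∀ w ∈ B ^ j, ((A * {w} * B).card : ℝ) ≤ α * (A.card : ℝ)) ∧
      ∀ X : Finset G, X ⊆ A → X.Nonempty →
        α ^ (c * (h : ℝ)) * (X.card : ℝ) < ((X * B ^ h).card : ℝ) := by
  obtain ⟨K, hK⟩ := exists_nat_gt (α ^ (c * (h : ℝ)))
  obtain ⟨G, iG, iF, iD, A, B, hA, h1, hw, hX⟩ := construction k K
  have hApos : (0 : ℝ) < (A.card : ℝ) := by exact_mod_cast Finset.card_pos.mpr hA
  refine ⟨G, iG, iF, iD, A, B, hA, ⟨1, h1⟩, ?_, ?_, ?_⟩
  · have h2 := hw 0 (Nat.zero_le _) 1 (by simp)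
    have h3 : A * {(1 : G)} * B = A * B := by
      rw [Finset.singleton_one, mul_one]
    rw [h3] at h2
    have h4 : ((A * B).card : ℝ) ≤ 2 * (A.card : ℝ) := by exact_mod_cast h2
    nlinarith
  · intro j hj b hb
    have h2 := hw j hj b hb
    have h4 : ((A * {b} * B).card : ℝ) ≤ 2 * (A.card : ℝ) := by exact_mod_cast h2
    nlinarith
  · intro X hXA hXne
    have hXpos : (0 : ℝ) < (X.card : ℝ) := by exact_mod_cast Finset.card_pos.mpr hXne
    have h2 := hX h hh X hXA
    have h4 : (K : ℝ) * (X.card : ℝ) ≤ ((X * B ^ h).card : ℝ) := by exact_mod_cast h2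
    nlinarith

end Pool.Agent.H78.Old.LongerWords
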